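import Pool.Agent.Helper49.Petrie.Base

/-!
# Row G: the Dirac indices determine the Pontrjagin class
-/

set_option linter.all false

namespace Pool.Agent.Helper34.Petrie

open Finset PowerSeries Pool.Agent.Helper49.Petrie

/-- The Euler operator `X d/dX`. -/
noncomputable def eu (f : ℂ⟦X⟧) : ℂ⟦X⟧ := X * d⁄dX ℂ f

theorem czm (f g : ℂ⟦X⟧) : coeff 0 (f * g) = coeff 0 f * coeff 0 g := by
  simp only [coeff_zero_eq_constantCoeff, map_mul]

theorem coeff_eu (f : ℂ⟦X⟧) (s : ℕ) : coeff s (eu f) = s * coeff s f := by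
  cases s with
  | zero => simp [eu]
  | succ s =>
    rw [eu, coeff_succ_X_mul, coeff_derivative]
    push_cast
    ring

theorem eu_mul (f g : ℂ⟦X⟧) : eu (f * g) = eu f * g + f * eu g := by
  simp only [eu, Derivation.leibniz, smul_eq_mul]
  ring

theorem eu_add (f g : ℂ⟦X⟧) : eu (f + g) = eu f + eu g := by
  simp only [eu, map_add]
  ring

theorem eu_X : eu X = X := by simp [eu]

theorem eu_one : eu 1 = 0 := by simp [eu]

theorem eu_rescale (a : ℂ) (f : ℂ⟦X⟧) : eu (rescale a f) = rescale a (eu f) := by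
  ext s
  rw [coeff_eu, coeff_rescale, coeff_rescale, coeff_eu]
  ring

/-- The product `∏ f(r_j X)`. -/
noncomputable def Pr (f : ℂ⟦X⟧) {m : ℕ} (r : Fin m → ℂ) : ℂ⟦X⟧ := ∏ j, rescale (r j) f

theorem eu_prod {ι : Type} (s : Finset ι) (f g : ι → ℂ⟦X⟧) (h : ∀ i ∈ s, eu (f i) = f i * g i) :
    eu (∏ i ∈ s, f i) = (∏ i ∈ s, f i) * ∑ i ∈ s, g i := by
  classical
  induction s using Finset.induction_on with
  | empty => simp [eu_one]
  | insert a s ha ih =>
    rw [Finset.prod_insert ha, Finset.sum_insert ha, eu_mul, ih (fun i hi => h i (by simp [hi])),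
      h a (by simp)]
    ring

theorem coeff_zero_prod {ι : Type} (s : Finset ι) (f : ι → ℂ⟦X⟧) (h : ∀ i ∈ s, coeff 0 (f i) = 1) :
    coeff 0 (∏ i ∈ s, f i) = 1 := by
  rw [coeff_zero_eq_constantCoeff, map_prod]
  apply Finset.prod_eq_one
  intro i hi
  simpa using h i hi

theorem coeff_sum_rescale (g : ℂ⟦X⟧) {m : ℕ} (r : Fin m → ℂ) (s : ℕ) :
    coeff s (∑ j, rescale (r j) g) = (∑ j, r j ^ s) * coeff s g := by
  rw [map_sum, Finset.sum_mul]
  simp [coeff_rescale]

/-- From coefficients to coefficients of the logarithmic derivative. -/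
theorem log_of_eq {A B LA LB : ℂ⟦X⟧} (hA : eu A = A * LA) (hB : eu B = B * LB)
    (hA0 : coeff 0 A = 1) (hB0 : coeff 0 B = 1) (N : ℕ)
    (h : ∀ s ≤ N, coeff s A = coeff s B) : ∀ s ≤ N, coeff s LA = coeff s LB := by
  intro s
  induction s using Nat.strong_induction_on with
  | _ s ih =>
    intro hs
    have h1 := congrArg (coeff s) hA
    have h2 := congrArg (coeff s) hB
    rw [coeff_eu, coeff_mul, Finset.Nat.sum_antidiagonal_eq_sum_range_succ_mk,
      Finset.sum_range_succ' (fun k => coeff k A * coeff (s - k) LA)] at h1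
    rw [coeff_eu, coeff_mul, Finset.Nat.sum_antidiagonal_eq_sum_range_succ_mk,
      Finset.sum_range_succ' (fun k => coeff k B * coeff (s - k) LB)] at h2
    rw [hA0, one_mul, Nat.sub_zero] at h1
    rw [hB0, one_mul, Nat.sub_zero] at h2
    have h3 : ∑ k ∈ range s, coeff (k + 1) A * coeff (s - (k + 1)) LA =
        ∑ k ∈ range s, coeff (k + 1) B * coeff (s - (k + 1)) LB := by
      apply Finset.sum_congr rfl
      intro k hk
      rw [Finset.mem_range] at hk
      rw [h (k + 1) (by omega), ih (s - (k + 1)) (by omega) (by omega)]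
    rw [h3, h s hs, h2] at h1
    exact (add_left_cancel h1).symm

/-- From coefficients of the logarithmic derivative to coefficients. -/
theorem eq_of_log {A B LA LB : ℂ⟦X⟧} (hA : eu A = A * LA) (hB : eu B = B * LB)
    (hA0 : coeff 0 A = 1) (hB0 : coeff 0 B = 1) (N : ℕ)
    (h : ∀ s ≤ N, coeff s LA = coeff s LB) : ∀ s ≤ N, coeff s A = coeff s B := by
  have hLA : coeff 0 LA = 0 := by
    have := congrArg (coeff 0) hA
    rw [coeff_eu, czm] at this
    simpa [hA0] using this.symm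
  have hLB : coeff 0 LB = 0 := by
    have := congrArg (coeff 0) hB
    rw [coeff_eu, czm] at this
    simpa [hB0] using this.symm
  intro s
  induction s using Nat.strong_induction_on with
  | _ s ih =>
    intro hs
    rcases Nat.eq_zero_or_pos s with rfl | hpos
    · rw [hA0, hB0]
    have h1 := congrArg (coeff s) hA
    have h2 := congrArg (coeff s) hB
    rw [coeff_eu, coeff_mul, Finset.Nat.sum_antidiagonal_eq_sum_range_succ_mk,
      Finset.sum_range_succ (fun k => coeff k A * coeff (s - k) LA)] at h1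
    rw [coeff_eu, coeff_mul, Finset.Nat.sum_antidiagonal_eq_sum_range_succ_mk,
      Finset.sum_range_succ (fun k => coeff k B * coeff (s - k) LB)] at h2
    rw [Nat.sub_self, hLA, mul_zero, add_zero] at h1
    rw [Nat.sub_self, hLB, mul_zero, add_zero] at h2
    have h3 : ∑ k ∈ range s, coeff k A * coeff (s - k) LA =
        ∑ k ∈ range s, coeff k B * coeff (s - k) LB := by
      apply Finset.sum_congr rfl
      intro k hk
      rw [Finset.mem_range] at hk
      rw [ih k hk (by omega), h (s - k) (by omega)]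
    rw [h3, ← h2] at h1
    have hs0 : (s : ℂ) ≠ 0 := by exact_mod_cast hpos.ne'
    exact mul_left_cancel₀ hs0 h1

/-! ### The series sigma -/

/-- `sinh(√X/2)/(√X/2)`. -/
noncomputable def sg : ℂ⟦X⟧ := mk fun s => ((4 : ℂ) ^ s * ((2 * s + 1).factorial : ℂ))⁻¹

theorem sg_zero : coeff 0 sg = 1 := by simp [sg]

theorem sg_const : constantCoeff sg ≠ 0 := by
  have := sg_zero
  rw [coeff_zero_eq_constantCoeff] at this
  rw [this]; exact one_ne_zero

theorem ahat_eq : ahatSeries = sg⁻¹ := rfl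

theorem ahat_mul : ahatSeries * sg = 1 := by
  rw [ahat_eq]; exact PowerSeries.inv_mul_cancel _ sg_const

theorem ahat_zero : coeff 0 ahatSeries = 1 := by
  have := congrArg (coeff 0) ahat_mul
  rw [czm, sg_zero] at this
  simpa using this

/-- the differential equation of `sg` -/
theorem ode : eu sg + 2 * eu (eu sg) = C (1 / 8 : ℂ) * (X * sg) := by
  ext s
  rw [map_add, coeff_C_mul]
  have h2 : coeff s (2 * eu (eu sg)) = 2 * coeff s (eu (eu sg)) := by
    have : (2 : ℂ⟦X⟧) = C (2 : ℂ) := (map_ofNat C 2).symm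
    rw [this, coeff_C_mul]
  rw [h2]
  simp only [coeff_eu]
  cases s with
  | zero => simp
  | succ s =>
    rw [coeff_succ_X_mul]
    have ha : (2 * (s : ℂ) + 3) ≠ 0 := by
      have : ((2 * s + 3 : ℕ) : ℂ) ≠ 0 := Nat.cast_ne_zero.mpr (by omega)
      push_cast at this; exact this
    have hb : ((s : ℂ) + 1) ≠ 0 := by exact_mod_cast Nat.succ_ne_zero s
    have key : coeff (s + 1) sg * (8 * ((s : ℂ) + 1) * (2 * s + 3)) = coeff s sg := by
      simp only [sg, coeff_mk]
      have e : 2 * (s + 1) + 1 = (2 * s + 1) + 1 + 1 := by ring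
      rw [e, Nat.factorial_succ, Nat.factorial_succ, pow_succ]
      have hf : ((2 * s + 1).factorial : ℂ) ≠ 0 := by exact_mod_cast Nat.factorial_ne_zero _
      have h4 : (4 : ℂ) ^ s ≠ 0 := pow_ne_zero _ (by norm_num)
      have e2 : ((((2 * s + 1 + 1 + 1) * ((2 * s + 1 + 1) * (2 * s + 1).factorial) : ℕ)) : ℂ) =
          (2 * (s : ℂ) + 3) * (2 * ((s : ℂ) + 1) * ((2 * s + 1).factorial : ℂ)) := by
        push_cast; ring
      rw [e2]
      field_simp
      ring
    rw [← key]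
    push_cast
    ring

/-- `w = sg + 2 ϑ sg` -/
noncomputable def wv : ℂ⟦X⟧ := sg + 2 * eu sg

theorem eu_two_mul (f : ℂ⟦X⟧) : eu (2 * f) = 2 * eu f := by
  rw [two_mul, eu_add, two_mul]

theorem eu_wv : eu wv = C (1 / 8 : ℂ) * (X * sg) := by
  rw [wv, eu_add, eu_two_mul, ode]

theorem C_rules : (C (1 / 8 : ℂ) : ℂ⟦X⟧) * 8 = 1 ∧ (C (1 / 4 : ℂ) : ℂ⟦X⟧) = 2 * C (1 / 8 : ℂ) := by
  constructor
  · have : (8 : ℂ⟦X⟧) = C (8 : ℂ) := (map_ofNat C 8).symm
    rw [this, ← map_mul]; norm_num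
  · have : (2 : ℂ⟦X⟧) = C (2 : ℂ) := (map_ofNat C 2).symm
    rw [this, ← map_mul]; norm_num

theorem eu_C (a : ℂ) : eu (C a) = 0 := by simp [eu]

theorem wv_sq : wv ^ 2 = 1 + C (1 / 4 : ℂ) * (X * sg ^ 2) := by
  have key : eu (wv ^ 2) = eu (1 + C (1 / 4 : ℂ) * (X * sg ^ 2)) := by
    rw [pow_two, pow_two, eu_mul, eu_wv, eu_add, eu_one, eu_mul, eu_C, eu_mul, eu_mul, eu_X,
      C_rules.2, wv]
    ring
  ext s
  cases s with
  | zero =>
    have h1 : coeff 0 (eu sg) = 0 := by rw [coeff_eu]; simp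
    have h2 : coeff 0 wv = 1 := by
      rw [wv, map_add, sg_zero, czm, h1]; simp
    rw [pow_two, czm, h2]
    simp
  | succ s =>
    have := congrArg (coeff (s + 1)) key
    rw [coeff_eu, coeff_eu] at this
    have hs0 : ((s + 1 : ℕ) : ℂ) ≠ 0 := by exact_mod_cast Nat.succ_ne_zero s
    exact mul_left_cancel₀ hs0 this

theorem eu_ahat : eu ahatSeries = - ahatSeries ^ 2 * eu sg := by
  have h := congrArg eu ahat_mul
  rw [eu_mul, eu_one] at h
  have h2 : eu ahatSeries * sg = - (ahatSeries * eu sg) := by linear_combination h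
  calc eu ahatSeries = eu ahatSeries * (ahatSeries * sg) := by rw [ahat_mul, mul_one]
    _ = (eu ahatSeries * sg) * ahatSeries := by ring
    _ = _ := by rw [h2]; ring

theorem eu_ahat_pow (m : ℕ) : eu (ahatSeries ^ m) = - (m : ℂ⟦X⟧) * (ahatSeries ^ (m + 1) * eu sg) := by
  induction m with
  | zero => simp [eu_one]
  | succ m ih =>
    rw [pow_succ, eu_mul, ih, eu_ahat]
    push_cast
    ring

theorem eu_nat_mul (m : ℕ) (f : ℂ⟦X⟧) : eu ((m : ℂ⟦X⟧) * f) = (m : ℂ⟦X⟧) * eu f := by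
  have : ((m : ℕ) : ℂ⟦X⟧) = C (m : ℂ) := (map_natCast C m).symm
  rw [this, eu_mul, eu_C, zero_mul, zero_add]

theorem step1 (m : ℕ) : (m : ℂ⟦X⟧) * ahatSeries ^ m - 2 * eu (ahatSeries ^ m) =
    (m : ℂ⟦X⟧) * (ahatSeries ^ (m + 1) * wv) := by
  have h : ahatSeries ^ m = ahatSeries ^ (m + 1) * sg := by
    rw [pow_succ, mul_assoc, ahat_mul, mul_one]
  rw [eu_ahat_pow, wv, mul_add, ← h]
  ring

theorem step2 (m : ℕ) :
    ((m + 1 : ℕ) : ℂ⟦X⟧) * ((m : ℂ⟦X⟧) * ahatSeries ^ m - 2 * eu (ahatSeries ^ m)) -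
      2 * eu ((m : ℂ⟦X⟧) * ahatSeries ^ m - 2 * eu (ahatSeries ^ m)) =
    (m : ℂ⟦X⟧) * ((m + 1 : ℕ) : ℂ⟦X⟧) * ahatSeries ^ (m + 2) +
      (m : ℂ⟦X⟧) ^ 2 * (C (1 / 4 : ℂ) * (X * ahatSeries ^ m)) := by
  have h : ahatSeries ^ m = ahatSeries ^ (m + 1) * sg := by
    rw [pow_succ, mul_assoc, ahat_mul, mul_one]
  have h' : ahatSeries ^ (m + 1) = ahatSeries ^ (m + 2) * sg := by
    rw [pow_succ ahatSeries (m + 1), mul_assoc, ahat_mul, mul_one]
  rw [step1, eu_nat_mul, eu_mul, eu_ahat_pow, eu_wv]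
  have hw := wv_sq
  have h8 := C_rules.2
  have e1 : ((m + 1 : ℕ) : ℂ⟦X⟧) * ((m : ℂ⟦X⟧) * (ahatSeries ^ (m + 1) * wv)) -
      2 * ((m : ℂ⟦X⟧) * (-((m + 1 : ℕ) : ℂ⟦X⟧) * (ahatSeries ^ (m + 1 + 1) * eu sg) * wv +
        ahatSeries ^ (m + 1) * (C (1 / 8 : ℂ) * (X * sg)))) =
      (m : ℂ⟦X⟧) * ((m + 1 : ℕ) : ℂ⟦X⟧) * (ahatSeries ^ (m + 2) * wv ^ 2) -
        (m : ℂ⟦X⟧) * (2 * C (1 / 8 : ℂ)) * (X * (ahatSeries ^ (m + 1) * sg)) := by
    have h'' : ahatSeries ^ (m + 1) * wv + 2 * (ahatSeries ^ (m + 2) * eu sg * wv) =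
        ahatSeries ^ (m + 2) * wv ^ 2 := by
      conv_lhs => rw [h']
      conv_rhs => rw [pow_two, wv]
      rw [wv]
      ring
    rw [← h'']
    ring
  rw [e1, hw, ← h, ← h8]
  have h3 : ahatSeries ^ (m + 2) * (1 + C (1 / 4 : ℂ) * (X * sg ^ 2)) =
      ahatSeries ^ (m + 2) + C (1 / 4 : ℂ) * (X * ahatSeries ^ m) := by
    have : ahatSeries ^ m = ahatSeries ^ (m + 2) * sg ^ 2 := by
      rw [h, h']; ring
    rw [this]; ring
  rw [h3]
  push_cast
  ring

/-- coefficient recursion -/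
theorem coeff_rec (m s : ℕ) :
    (m : ℂ) * (m + 1) * coeff s (ahatSeries ^ (m + 2)) +
      (m : ℂ) ^ 2 / 4 * coeff s (X * ahatSeries ^ m) =
    ((m : ℂ) + 1 - 2 * s) * (m - 2 * s) * coeff s (ahatSeries ^ m) := by
  have h := congrArg (coeff s) (step2 m)
  have c1 : ∀ (a : ℂ) (f : ℂ⟦X⟧), coeff s (C a * f) = a * coeff s f := fun a f => coeff_C_mul _ _ _
  have n1 : ∀ k : ℕ, ((k : ℕ) : ℂ⟦X⟧) = C (k : ℂ) := fun k => (map_natCast C k).symm
  have t1 : (2 : ℂ⟦X⟧) = C (2 : ℂ) := (map_ofNat C 2).symm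
  rw [n1 (m + 1), n1 m, t1, ← map_mul, ← map_pow] at h
  simp only [map_add, map_sub, c1, coeff_eu] at h
  push_cast at h
  linear_combination -h

/-- The standard index polynomial. -/
noncomputable def Fst (n : ℕ) (κ : ℂ) : ℂ :=
  ∑ s ∈ range (n / 2 + 1), κ ^ (n - 2 * s) / ((n - 2 * s).factorial : ℂ) *
    coeff s (ahatSeries ^ (n + 1))

theorem Fst_rec (k : ℕ) (κ : ℂ) :
    ((k : ℂ) + 2) * (k + 1) * Fst (k + 2) κ = (κ ^ 2 - (((k : ℂ) + 1) / 2) ^ 2) * Fst k κ := by
  have hr : (k + 2) / 2 + 1 = (k / 2 + 1) + 1 := by omega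
  unfold Fst
  rw [hr, Finset.mul_sum]
  have e0 : ∀ s ∈ range (k / 2 + 1 + 1), ((k : ℂ) + 2) * (k + 1) *
      (κ ^ (k + 2 - 2 * s) / ((k + 2 - 2 * s).factorial : ℂ) *
        coeff s (ahatSeries ^ (k + 2 + 1))) =
      κ ^ (k + 2 - 2 * s) / ((k + 2 - 2 * s).factorial : ℂ) *
        ((((k : ℂ) + 2) - 2 * s) * ((k : ℂ) + 1 - 2 * s) * coeff s (ahatSeries ^ (k + 1))) -
      κ ^ (k + 2 - 2 * s) / ((k + 2 - 2 * s).factorial : ℂ) *
        (((k : ℂ) + 1) ^ 2 / 4 * coeff s (X * ahatSeries ^ (k + 1))) := by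
    intro s _
    have h := coeff_rec (k + 1) s
    push_cast at h
    have h' : ((k : ℂ) + 1) * (k + 2) * coeff s (ahatSeries ^ (k + 2 + 1)) =
        (((k : ℂ) + 2) - 2 * s) * ((k : ℂ) + 1 - 2 * s) * coeff s (ahatSeries ^ (k + 1)) -
        ((k : ℂ) + 1) ^ 2 / 4 * coeff s (X * ahatSeries ^ (k + 1)) := by
      have e3 : k + 2 + 1 = k + 1 + 2 := by ring
      rw [e3]
      linear_combination h
    rw [← mul_sub, ← h']
    ring
  rw [Finset.sum_congr rfl e0, Finset.sum_sub_distrib, Finset.sum_range_succ,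
    Finset.sum_range_succ' (fun s => κ ^ (k + 2 - 2 * s) / ((k + 2 - 2 * s).factorial : ℂ) *
        (((k : ℂ) + 1) ^ 2 / 4 * coeff s (X * ahatSeries ^ (k + 1))))]
  have z1 : (((k : ℂ) + 2) - 2 * ((k / 2 + 1 : ℕ) : ℂ)) * ((k : ℂ) + 1 - 2 * ((k / 2 + 1 : ℕ) : ℂ))
      = 0 := by
    rcases Nat.even_or_odd' k with ⟨j, hj | hj⟩
    · have : k / 2 = j := by omega
      rw [this, hj]; push_cast; ring
    · have : k / 2 = j := by omega
      rw [this, hj]; push_cast; ring
  rw [z1]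
  have z2 : coeff 0 ((X : ℂ⟦X⟧) * ahatSeries ^ (k + 1)) = 0 := by rw [czm]; simp
  rw [z2]
  have e1 : ∀ s ∈ range (k / 2 + 1), κ ^ (k + 2 - 2 * s) / ((k + 2 - 2 * s).factorial : ℂ) *
        ((((k : ℂ) + 2) - 2 * s) * ((k : ℂ) + 1 - 2 * s) * coeff s (ahatSeries ^ (k + 1))) =
      κ ^ 2 * (κ ^ (k - 2 * s) / ((k - 2 * s).factorial : ℂ) *
        coeff s (ahatSeries ^ (k + 1))) := by
    intro s hs
    rw [Finset.mem_range] at hs
    obtain ⟨t, ht⟩ : ∃ t, k = 2 * s + t := ⟨k - 2 * s, by omega⟩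
    have a1 : k + 2 - 2 * s = t + 2 := by omega
    have a2 : k - 2 * s = t := by omega
    rw [a1, a2, Nat.factorial_succ, Nat.factorial_succ, ht]
    have hf : ((t).factorial : ℂ) ≠ 0 := by exact_mod_cast Nat.factorial_ne_zero _
    have h1 : ((t : ℂ) + 1) ≠ 0 := by exact_mod_cast Nat.succ_ne_zero t
    have h2 : ((t : ℂ) + 2) ≠ 0 := by
      have : ((t + 2 : ℕ) : ℂ) ≠ 0 := Nat.cast_ne_zero.mpr (by omega)
      push_cast at this; exact this
    have e2 : ((((t + 1 + 1) * ((t + 1) * t.factorial) : ℕ)) : ℂ) =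
        ((t : ℂ) + 2) * (((t : ℂ) + 1) * (t.factorial : ℂ)) := by push_cast; ring
    have e4 : (((2 * s + t : ℕ) : ℂ) + 2) - 2 * s = (t : ℂ) + 2 := by push_cast; ring
    have e5 : (((2 * s + t : ℕ) : ℂ) + 1) - 2 * s = (t : ℂ) + 1 := by push_cast; ring
    rw [e2, e4, e5]
    field_simp
    ring
  have e2 : ∀ s ∈ range (k / 2 + 1),
      κ ^ (k + 2 - 2 * (s + 1)) / ((k + 2 - 2 * (s + 1)).factorial : ℂ) *
        (((k : ℂ) + 1) ^ 2 / 4 * coeff (s + 1) (X * ahatSeries ^ (k + 1))) =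
      (((k : ℂ) + 1) / 2) ^ 2 * (κ ^ (k - 2 * s) / ((k - 2 * s).factorial : ℂ) *
        coeff s (ahatSeries ^ (k + 1))) := by
    intro s hs
    rw [Finset.mem_range] at hs
    have a1 : k + 2 - 2 * (s + 1) = k - 2 * s := by omega
    rw [a1, coeff_succ_X_mul]
    ring
  rw [Finset.sum_congr rfl e1, Finset.sum_congr rfl e2, ← Finset.mul_sum, ← Finset.mul_sum]
  ring

theorem Fst_zero (n : ℕ) : ∀ c : ℤ, Even (c + (n + 1)) → |c| < n + 1 → Fst n ((c : ℂ) / 2) = 0 := by
  induction n using Nat.strong_induction_on with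
  | _ n ih =>
    intro c he hc
    match n, ih, he, hc with
    | 0, _, he, hc =>
      have : c = 0 := by
        have : |c| < 1 := by simpa using hc
        exact Int.abs_lt_one_iff.mp this
      subst this
      norm_num at he
    | 1, _, he, hc =>
      have h1 : c = 0 := by
        push_cast at he hc
        rw [abs_lt] at hc
        obtain ⟨k, hk⟩ := he
        omega
      subst h1
      simp [Fst]
    | k + 2, ih, he, hc =>
      have h := Fst_rec k ((c : ℂ) / 2)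
      have hk : ((k : ℂ) + 2) * (k + 1) ≠ 0 := by
        have : (((k + 2) * (k + 1) : ℕ) : ℂ) ≠ 0 := Nat.cast_ne_zero.mpr (by positivity)
        push_cast at this; exact this
      have h0 : (((c : ℂ) / 2) ^ 2 - (((k : ℂ) + 1) / 2) ^ 2) * Fst k ((c : ℂ) / 2) = 0 := by
        by_cases hcc : |c| = k + 1
        · have : (c : ℂ) ^ 2 = ((k : ℂ) + 1) ^ 2 := by
            have h2 : c ^ 2 = ((k : ℤ) + 1) ^ 2 := by rw [← hcc, sq_abs]
            exact_mod_cast h2
          have h3 : ((c : ℂ) / 2) ^ 2 - (((k : ℂ) + 1) / 2) ^ 2 = 0 := by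
            linear_combination this / 4
          rw [h3, zero_mul]
        · rw [ih k (by omega) c, mul_zero]
          · push_cast at he
            obtain ⟨t, ht⟩ := he
            exact ⟨t - 1, by omega⟩
          · push_cast at he hc
            obtain ⟨t, ht⟩ := he
            rcases abs_cases c with ⟨h1, h2⟩ | ⟨h1, h2⟩ <;> omega
      rw [h0] at h
      exact (mul_eq_zero.mp h).resolve_left hk

/-! ### The logarithmic derivative of `ahatSeries` -/

/-- `θ = ϑ sg / sg` -/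
noncomputable def th : ℂ⟦X⟧ := eu sg * ahatSeries

theorem eu_ahat' : eu ahatSeries = ahatSeries * (-th) := by
  rw [eu_ahat, th]; ring

theorem th_ode : eu th + C (1 / 2 : ℂ) * th + th ^ 2 = C (1 / 16 : ℂ) * X := by
  have h := ode
  have c1 : (C (1 / 2 : ℂ) : ℂ⟦X⟧) * 2 = 1 := by
    have : (2 : ℂ⟦X⟧) = C (2 : ℂ) := (map_ofNat C 2).symm
    rw [this, ← map_mul]; norm_num
  have c2 : (C (1 / 16 : ℂ) : ℂ⟦X⟧) = C (1 / 2 : ℂ) * C (1 / 8 : ℂ) := by
    rw [← map_mul]; norm_num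
  have h2 : eu (eu sg) = C (1 / 2 : ℂ) * (C (1 / 8 : ℂ) * (X * sg) - eu sg) := by
    rw [← h]
    linear_combination (- eu (eu sg)) * c1
  rw [th, eu_mul, eu_ahat, h2, c2]
  linear_combination (C (1 / 2 : ℂ) * C (1 / 8 : ℂ) * X) * ahat_mul

theorem th_zero : coeff 0 th = 0 := by
  rw [th, czm, coeff_eu]; simp

theorem th_pos (s : ℕ) (hs : 0 < s) : ∃ t : ℝ, 0 < t ∧ coeff s th = (-1) ^ (s + 1) * (t : ℂ) := by
  induction s using Nat.strong_induction_on with
  | _ s ih =>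
    have h := congrArg (coeff s) th_ode
    rw [map_add, map_add, coeff_eu, coeff_C_mul, coeff_C_mul] at h
    rcases Nat.lt_or_ge 1 s with h1 | h1
    · -- s ≥ 2
      have hX : coeff s (X : ℂ⟦X⟧) = 0 := by rw [coeff_X, if_neg (by omega)]
      rw [hX, mul_zero] at h
      choose! t ht using ih
      have hsum : coeff s (th ^ 2) = (-1) ^ s *
          ((∑ k ∈ Finset.Ico 1 s, t k * t (s - k) : ℝ) : ℂ) := by
        rw [pow_two, coeff_mul, Finset.Nat.sum_antidiagonal_eq_sum_range_succ_mk,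
          Finset.sum_range_succ, Nat.sub_self, th_zero, mul_zero, add_zero,
          Finset.range_eq_Ico, Finset.sum_eq_sum_Ico_succ_bot (by omega : 0 < s), th_zero,
          zero_mul, zero_add]
        push_cast
        rw [Finset.mul_sum]
        apply Finset.sum_congr rfl
        intro k hk
        rw [Finset.mem_Ico] at hk
        rw [(ht k (by omega) (by omega)).2, (ht (s - k) (by omega) (by omega)).2]
        have : (-1 : ℂ) ^ s = (-1) ^ (k + 1) * (-1) ^ (s - k + 1) := by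
          rw [← pow_add]
          have : k + 1 + (s - k + 1) = s + 2 := by omega
          rw [this, pow_add]; norm_num
        rw [this]; ring
      have hSpos : 0 < ∑ k ∈ Finset.Ico 1 s, t k * t (s - k) := by
        apply Finset.sum_pos
        · intro k hk
          rw [Finset.mem_Ico] at hk
          exact mul_pos (ht k (by omega) (by omega)).1 (ht (s - k) (by omega) (by omega)).1
        · exact ⟨1, by rw [Finset.mem_Ico]; omega⟩
      generalize (∑ k ∈ Finset.Ico 1 s, t k * t (s - k)) = S at hsum hSpos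
      refine ⟨S / (s + 1 / 2), div_pos hSpos (by positivity), ?_⟩
      rw [hsum] at h
      have hne : ((s : ℂ) + 1 / 2) ≠ 0 := by
        have : (((s : ℝ) + 1 / 2 : ℝ) : ℂ) ≠ 0 := Complex.ofReal_ne_zero.mpr (by positivity)
        push_cast at this
        exact this
      have h5 : coeff s th * ((s : ℂ) + 1 / 2) = (-1) ^ (s + 1) * (S : ℂ) := by
        rw [pow_succ]; linear_combination h
      push_cast
      rw [← mul_div_assoc, eq_div_iff hne, h5]
    · have hs1 : s = 1 := by omega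
      subst hs1
      have hsq : coeff 1 (th ^ 2) = 0 := by
        rw [pow_two, coeff_mul, Finset.Nat.sum_antidiagonal_eq_sum_range_succ_mk]
        simp [Finset.sum_range_succ, th_zero]
      rw [hsq, coeff_one_X] at h
      refine ⟨1 / 24, by norm_num, ?_⟩
      push_cast at h ⊢
      linear_combination (2 / 3 : ℂ) * h

theorem th_ne (s : ℕ) (hs : 0 < s) : coeff s th ≠ 0 := by
  obtain ⟨t, ht, h⟩ := th_pos s hs
  rw [h]
  apply mul_ne_zero
  · exact pow_ne_zero _ (by norm_num)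
  · exact_mod_cast ht.ne'

/-! ### Conclusion -/

theorem Pr_eu {f g : ℂ⟦X⟧} (h : eu f = f * g) {m : ℕ} (r : Fin m → ℂ) :
    eu (Pr f r) = Pr f r * ∑ j, rescale (r j) g := by
  apply eu_prod
  intro i _
  rw [eu_rescale, h, map_mul]

theorem Pr_zero {f : ℂ⟦X⟧} (h : coeff 0 f = 1) {m : ℕ} (r : Fin m → ℂ) : coeff 0 (Pr f r) = 1 := by
  apply coeff_zero_prod
  intro i _
  rw [coeff_rescale, h]; simp

theorem Pr_one (f : ℂ⟦X⟧) (m : ℕ) : Pr f (fun _ : Fin m => (1 : ℂ)) = f ^ m := by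
  simp [Pr]

theorem ahat_coeff (n : ℕ) (r : Fin (n / 2) → ℂ)
    (h : ∀ c : ℤ, Even (c + (n + 1)) → |c| < n + 1 → diracIndex n r c = 0)
    (s : ℕ) (hs : s ≤ n / 2) :
    coeff s (Pr ahatSeries r) = coeff s (ahatSeries ^ (n + 1)) := by
  -- the polynomial
  let P : Polynomial ℂ := ∑ s ∈ range (n / 2 + 1),
    Polynomial.C ((coeff s (Pr ahatSeries r) - coeff s (ahatSeries ^ (n + 1))) /
      ((n - 2 * s).factorial : ℂ)) * Polynomial.X ^ (n - 2 * s)
  have hc0 : coeff 0 (Pr ahatSeries r) - coeff 0 (ahatSeries ^ (n + 1)) = 0 := by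
    rw [Pr_zero ahat_zero, ← Pr_one, Pr_zero ahat_zero, sub_self]
  have hev : ∀ c : ℤ, Even (c + (n + 1)) → |c| < n + 1 → P.eval ((c : ℂ) / 2) = 0 := by
    intro c he hc
    have h1 := h c he hc
    have h2 := Fst_zero n c he hc
    have h3 : P.eval ((c : ℂ) / 2) = diracIndex n r c - Fst n ((c : ℂ) / 2) := by
      simp only [P, Polynomial.eval_finsetSum, Polynomial.eval_mul, Polynomial.eval_C,
        Polynomial.eval_pow, Polynomial.eval_X, diracIndex, Fst]
      rw [← Finset.sum_sub_distrib]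
      apply Finset.sum_congr rfl
      intro s _
      have : ahatClass r = Pr ahatSeries r := rfl
      rw [this]
      ring
    rw [h3, h1, h2, sub_zero]
  have hdeg : P.degree < ((Finset.range n).image
      (fun i : ℕ => (((2 * (i : ℤ) - (n - 1) : ℤ)) : ℂ) / 2)).card := by
    rw [Finset.card_image_of_injective, Finset.card_range]
    · apply lt_of_le_of_lt (Polynomial.degree_sum_le _ _)
      refine (Finset.sup_lt_iff (WithBot.bot_lt_coe n)).mpr ?_
      intro s hs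
      rw [Finset.mem_range] at hs
      rcases Nat.eq_zero_or_pos s with rfl | hpos
      · rw [hc0]; simp [WithBot.bot_lt_coe]
      · apply lt_of_le_of_lt (Polynomial.degree_C_mul_X_pow_le _ _)
        exact WithBot.coe_lt_coe.mpr (by omega : n - 2 * s < n)
    · intro i j hij
      have h1 : (((2 * (i : ℤ) - (n - 1) : ℤ)) : ℂ) = (((2 * (j : ℤ) - (n - 1) : ℤ)) : ℂ) := by
        have := hij
        simp only at this
        linear_combination 2 * this
      have h2 : (2 * (i : ℤ) - (n - 1) : ℤ) = (2 * (j : ℤ) - (n - 1) : ℤ) := by exact_mod_cast h1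
      omega
  have hP : P = 0 := by
    apply Polynomial.eq_zero_of_degree_lt_of_eval_finset_eq_zero _ hdeg
    intro x hx
    rw [Finset.mem_image] at hx
    obtain ⟨i, hi, rfl⟩ := hx
    rw [Finset.mem_range] at hi
    apply hev
    · exact ⟨i + 1, by ring⟩
    · rw [abs_lt]; constructor <;> omega
  have hcoef := congrArg (fun q => Polynomial.coeff q (n - 2 * s)) hP
  simp only [P, Polynomial.finsetSum_coeff, Polynomial.coeff_C_mul, Polynomial.coeff_X_pow,
    Polynomial.coeff_zero] at hcoef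
  rw [Finset.sum_eq_single s] at hcoef
  · rw [if_pos rfl, mul_one, div_eq_zero_iff] at hcoef
    rcases hcoef with h1 | h1
    · exact sub_eq_zero.mp h1
    · exact absurd h1 (by exact_mod_cast Nat.factorial_ne_zero _)
  · intro b hb hbs
    rw [Finset.mem_range] at hb
    rw [if_neg (by omega), mul_zero]
  · intro hns
    exact absurd (Finset.mem_range.mpr (by omega)) hns

theorem dirac_std (n : ℕ) (r : Fin (n / 2) → ℂ)
    (h : ∀ c : ℤ, Even (c + (n + 1)) → |c| < n + 1 → diracIndex n r c = 0)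
    (s : ℕ) (hs : 2 * s ≤ n) :
    (∏ j, (1 + Polynomial.C (r j) * Polynomial.X)).coeff s = ((n + 1).choose s : ℂ) := by
  have hA := ahat_coeff n r h
  have h1 : ∀ s ≤ n / 2, coeff s (∑ j, rescale (r j) (-th)) =
      coeff s (∑ j : Fin (n + 1), rescale (1 : ℂ) (-th)) := by
    apply log_of_eq (Pr_eu eu_ahat' r) (Pr_eu eu_ahat' (fun _ : Fin (n + 1) => (1 : ℂ)))
      (Pr_zero ahat_zero r) (Pr_zero ahat_zero _)
    intro s hs
    rw [Pr_one]
    exact hA s hs
  have h2 : ∀ s ≤ n / 2, 0 < s → ∑ j, r j ^ s = n + 1 := by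
    intro s hs hpos
    have := h1 s hs
    rw [coeff_sum_rescale, coeff_sum_rescale] at this
    have hne : coeff s (-th) ≠ 0 := by
      rw [map_neg]; exact neg_ne_zero.mpr (th_ne s hpos)
    have := mul_right_cancel₀ hne this
    rw [this]; simp
  -- the series `1 + X`
  have hg : eu (1 + X : ℂ⟦X⟧) = (1 + X) * (X * (1 + X)⁻¹) := by
    have hc : constantCoeff (1 + X : ℂ⟦X⟧) ≠ 0 := by simp
    rw [mul_left_comm, PowerSeries.mul_inv_cancel _ hc, mul_one, eu_add, eu_one, eu_X, zero_add]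
  have h0 : coeff 0 (1 + X : ℂ⟦X⟧) = 1 := by simp
  have hg0 : coeff 0 (X * (1 + X)⁻¹ : ℂ⟦X⟧) = 0 := by rw [czm]; simp
  have h3 : ∀ s ≤ n / 2, coeff s (Pr (1 + X) r) =
      coeff s (Pr (1 + X) (fun _ : Fin (n + 1) => (1 : ℂ))) := by
    apply eq_of_log (Pr_eu hg r) (Pr_eu hg (fun _ : Fin (n + 1) => (1 : ℂ)))
      (Pr_zero h0 r) (Pr_zero h0 _)
    intro s hs
    rw [coeff_sum_rescale, coeff_sum_rescale]
    rcases Nat.eq_zero_or_pos s with rfl | hpos
    · rw [hg0, mul_zero, mul_zero]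
    · rw [h2 s hs hpos]; simp
  have h4 := h3 s (by omega)
  rw [Pr_one] at h4
  have e1 : (((∏ j, (1 + Polynomial.C (r j) * Polynomial.X) : Polynomial ℂ)) : ℂ⟦X⟧) =
      Pr (1 + X) r := by
    rw [← Polynomial.coeToPowerSeries.ringHom_apply, map_prod, Pr]
    apply Finset.prod_congr rfl
    intro j _
    simp [rescale_X]
  have e2 : (((1 + Polynomial.X : Polynomial ℂ) ^ (n + 1) : Polynomial ℂ) : ℂ⟦X⟧) =
      (1 + X) ^ (n + 1) := by simp
  rw [← Polynomial.coeff_coe, e1, h4, ← e2, Polynomial.coeff_coe, Polynomial.coeff_one_add_X_pow]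

end Pool.Agent.Helper34.Petrie
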