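import Pool.Agent.Helper57.Petrie.B

/-!
# Row C: special lines contain four points
-/

set_option linter.all false

namespace Pool.Agent.Helper34.Petrie

open Finset Pool.Agent.Helper49.Petrie

/-! ### Arithmetic -/

section arith

variable {ι : Type} [DecidableEq ι] (T : Finset ι) (t : ι → ℤ) (x y : ℤ) (μ μ' : ℕ)

theorem cnt_full (heq : ∀ m : ℕ, (m = 1 ∨ IsPrimePow m) → #{j ∈ T | (m : ℤ) ∣ t j} =
      (if (m : ℤ) ∣ x then μ else 0) + (if (m : ℤ) ∣ y then μ' else 0)) : #T = μ + μ' := by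
  have := heq 1 (Or.inl rfl)
  simpa using this

theorem pp_dvd (heq : ∀ m : ℕ, (m = 1 ∨ IsPrimePow m) → #{j ∈ T | (m : ℤ) ∣ t j} =
      (if (m : ℤ) ∣ x then μ else 0) + (if (m : ℤ) ∣ y then μ' else 0))
    (m : ℕ) (hm : m = 1 ∨ IsPrimePow m) (hx : (m : ℤ) ∣ x) (hy : (m : ℤ) ∣ y) :
    ∀ j ∈ T, (m : ℤ) ∣ t j := by
  have h := heq m hm
  rw [if_pos hx, if_pos hy, ← cnt_full T t x y μ μ' heq] at h
  intro j hj
  have h2 := Finset.filter_card_eq h
  exact h2 j hj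

/-- divisibility by prime powers -/
theorem dvd_of_pp (d n : ℤ) (h : ∀ m : ℕ, (m = 1 ∨ IsPrimePow m) → (m : ℤ) ∣ d → (m : ℤ) ∣ n) :
    d ∣ n := by
  rw [← Int.natAbs_dvd_natAbs, Nat.dvd_iff_prime_pow_dvd_dvd]
  intro p k hp hk
  rcases Nat.eq_zero_or_pos k with rfl | hk0
  · simp
  · have := h (p ^ k) (Or.inr ((Nat.prime_iff.mp hp).isPrimePow.pow hk0.ne'))
      (Int.natCast_dvd.mpr hk)
    exact Int.natCast_dvd.mp this

theorem all_dvd (heq : ∀ m : ℕ, (m = 1 ∨ IsPrimePow m) → #{j ∈ T | (m : ℤ) ∣ t j} =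
      (if (m : ℤ) ∣ x then μ else 0) + (if (m : ℤ) ∣ y then μ' else 0))
    (d : ℤ) (hx : d ∣ x) (hy : d ∣ y) : ∀ j ∈ T, d ∣ t j := by
  intro j hj
  apply dvd_of_pp
  intro m hm hd
  exact pp_dvd T t x y μ μ' heq m hm (hd.trans hx) (hd.trans hy) j hj

theorem dvd_or (ht : ∀ j ∈ T, t j ≠ 0) (hle : ∀ m : ℕ, 0 < m → #{j ∈ T | (m : ℤ) ∣ t j} ≤
      (if (m : ℤ) ∣ x then μ else 0) + (if (m : ℤ) ∣ y then μ' else 0)) :
    ∀ j ∈ T, t j ∣ x ∨ t j ∣ y := by
  intro j hj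
  by_contra hcon
  push Not at hcon
  have h := hle (t j).natAbs (Int.natAbs_pos.mpr (ht j hj))
  have e : ∀ z : ℤ, ((t j).natAbs : ℤ) ∣ z ↔ t j ∣ z := fun z => Int.natAbs_dvd
  rw [if_neg (by rw [e]; exact hcon.1), if_neg (by rw [e]; exact hcon.2)] at h
  have : j ∈ T.filter (fun j' => ((t j).natAbs : ℤ) ∣ t j') := by
    rw [Finset.mem_filter]
    exact ⟨hj, by rw [e]⟩
  have hpos := Finset.card_pos.mpr ⟨j, this⟩
  omega

theorem caseA (hx : x ≠ 0) (hxy : x.natAbs = y.natAbs) (ht : ∀ j ∈ T, t j ≠ 0)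
    (hle : ∀ m : ℕ, 0 < m → #{j ∈ T | (m : ℤ) ∣ t j} ≤
      (if (m : ℤ) ∣ x then μ else 0) + (if (m : ℤ) ∣ y then μ' else 0))
    (heq : ∀ m : ℕ, (m = 1 ∨ IsPrimePow m) → #{j ∈ T | (m : ℤ) ∣ t j} =
      (if (m : ℤ) ∣ x then μ else 0) + (if (m : ℤ) ∣ y then μ' else 0)) (m : ℕ) (hm : 0 < m) :
    #{j ∈ T | (m : ℤ) ∣ t j} =
      (if (m : ℤ) ∣ x then μ else 0) + (if (m : ℤ) ∣ y then μ' else 0) := by
  have hdx : x ∣ y := Int.natAbs_dvd_natAbs.mp (hxy ▸ dvd_rfl)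
  have hdy : y ∣ x := Int.natAbs_dvd_natAbs.mp (hxy ▸ dvd_rfl)
  have h1 := all_dvd T t x y μ μ' heq x dvd_rfl hdx
  have h2 : ∀ j ∈ T, t j ∣ x := fun j hj =>
    (dvd_or T t x y μ μ' ht hle j hj).elim id (fun h => h.trans hdy)
  by_cases hmx : (m : ℤ) ∣ x
  · rw [if_pos hmx, if_pos (hmx.trans hdx), ← cnt_full T t x y μ μ' heq]
    rw [Finset.filter_true_of_mem (fun j hj => hmx.trans (h1 j hj))]
  · rw [if_neg hmx, if_neg (fun h => hmx (h.trans hdy)),
      Finset.filter_false_of_mem (fun j hj h => hmx (h.trans (h2 j hj)))]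
    rfl

theorem caseB (hx : x ≠ 0) (hxy : y = 2 * x) (ht : ∀ j ∈ T, t j ≠ 0)
    (hle : ∀ m : ℕ, 0 < m → #{j ∈ T | (m : ℤ) ∣ t j} ≤
      (if (m : ℤ) ∣ x then μ else 0) + (if (m : ℤ) ∣ y then μ' else 0))
    (heq : ∀ m : ℕ, (m = 1 ∨ IsPrimePow m) → #{j ∈ T | (m : ℤ) ∣ t j} =
      (if (m : ℤ) ∣ x then μ else 0) + (if (m : ℤ) ∣ y then μ' else 0)) (m : ℕ) (hm : 0 < m) :
    #{j ∈ T | (m : ℤ) ∣ t j} =
      (if (m : ℤ) ∣ x then μ else 0) + (if (m : ℤ) ∣ y then μ' else 0) := by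
  have hdx : x ∣ y := ⟨2, by rw [hxy]; ring⟩
  have h1 := all_dvd T t x y μ μ' heq x dvd_rfl hdx
  have h2 : ∀ j ∈ T, t j ∣ y := fun j hj =>
    (dvd_or T t x y μ μ' ht hle j hj).elim (fun h => h.trans hdx) id
  -- the exponent of 2
  have hfin : FiniteMultiplicity (2 : ℤ) x :=
    Int.finiteMultiplicity_iff.mpr ⟨by norm_num, hx⟩
  set e := multiplicity (2 : ℤ) x with he
  have hq : ((2 ^ (e + 1) : ℕ) : ℤ) ∣ y := by
    rw [hxy]
    push_cast
    rw [pow_succ, mul_comm]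
    exact mul_dvd_mul_left 2 (pow_multiplicity_dvd 2 x)
  have hq' : ¬ ((2 ^ (e + 1) : ℕ) : ℤ) ∣ x := by
    push_cast
    exact hfin.not_pow_dvd_of_multiplicity_lt (Nat.lt_succ_self e)
  have hcount := heq (2 ^ (e + 1)) (Or.inr ((Nat.prime_iff.mp Nat.prime_two).isPrimePow.pow
    (Nat.succ_ne_zero e)))
  rw [if_neg hq', if_pos hq, zero_add] at hcount
  -- every weight is `x * s` with `s ∣ 2`
  have h3 : ∀ j ∈ T, (¬ ((2 ^ (e + 1) : ℕ) : ℤ) ∣ t j → t j ∣ x) ∧
      (((2 ^ (e + 1) : ℕ) : ℤ) ∣ t j → y ∣ t j) := by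
    intro j hj
    obtain ⟨s, hs⟩ := h1 j hj
    have hs2 : s ∣ 2 := by
      have := h2 j hj
      rw [hs, hxy, mul_comm 2 x] at this
      exact (mul_dvd_mul_iff_left hx).mp this
    have hs3 : s.natAbs ∣ 2 := by simpa using Int.natAbs_dvd_natAbs.mpr hs2
    rcases (Nat.dvd_prime Nat.prime_two).mp hs3 with h | h
    · have hsx : t j ∣ x := by
        rw [hs]
        have : s ∣ 1 := by
          rw [← Int.natAbs_dvd_natAbs, h]; simp
        simpa using mul_dvd_mul_left x this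
      exact ⟨fun _ => hsx, fun h' => absurd (h'.trans hsx) hq'⟩
    · have hsy : y ∣ t j := by
        rw [hs, hxy, mul_comm 2 x]
        apply mul_dvd_mul_left
        rw [← Int.natAbs_dvd_natAbs, h]; simp
      exact ⟨fun h' => absurd (hq.trans hsy) h', fun _ => hsy⟩
  by_cases hmx : (m : ℤ) ∣ x
  · rw [if_pos hmx, if_pos (hmx.trans hdx), ← cnt_full T t x y μ μ' heq]
    rw [Finset.filter_true_of_mem (fun j hj => hmx.trans (h1 j hj))]
  · by_cases hmy : (m : ℤ) ∣ y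
    · rw [if_neg hmx, if_pos hmy, zero_add, ← hcount]
      congr 1
      apply Finset.filter_congr
      intro j hj
      constructor
      · intro h
        by_contra hc
        exact hmx (h.trans ((h3 j hj).1 hc))
      · intro h
        exact hmy.trans ((h3 j hj).2 h)
    · rw [if_neg hmx, if_neg hmy,
        Finset.filter_false_of_mem (fun j hj h => hmy (h.trans (h2 j hj)))]
      rfl

/-- one half of case C -/
theorem caseC_half (hx : x ≠ 0) (hy : y ≠ 0) (hyx : ¬ y ∣ x) (ht : ∀ j ∈ T, t j ≠ 0)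
    (hle : ∀ m : ℕ, 0 < m → #{j ∈ T | (m : ℤ) ∣ t j} ≤
      (if (m : ℤ) ∣ x then μ else 0) + (if (m : ℤ) ∣ y then μ' else 0))
    (heq : ∀ m : ℕ, (m = 1 ∨ IsPrimePow m) → #{j ∈ T | (m : ℤ) ∣ t j} =
      (if (m : ℤ) ∣ x then μ else 0) + (if (m : ℤ) ∣ y then μ' else 0))
    (q : ℕ) (hq : IsPrimePow q) (hqx : (q : ℤ) ∣ x) (hqy : ¬ (q : ℤ) ∣ y) :
    ∀ j ∈ T, (q : ℤ) ∣ t j → (x ∣ t j ∧ t j ∣ x) := by
  -- a prime power dividing `y`, not `x`
  obtain ⟨r, hr, hry, hrx⟩ : ∃ r : ℕ, IsPrimePow r ∧ (r : ℤ) ∣ y ∧ ¬ (r : ℤ) ∣ x := by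
    by_contra hcon
    push Not at hcon
    apply hyx
    apply dvd_of_pp
    intro m hm hmy
    rcases hm with rfl | hm
    · simp
    · exact hcon m hm hmy
  have hor := dvd_or T t x y μ μ' ht hle
  have hR : #{j ∈ T | (r : ℤ) ∣ t j} = μ' := by
    rw [heq r (Or.inr hr), if_neg hrx, if_pos hry, zero_add]
  have hfull := cnt_full T t x y μ μ' heq
  have key : ∀ q' : ℕ, IsPrimePow q' → (q' : ℤ) ∣ x → ¬ (q' : ℤ) ∣ y →
      T.filter (fun j => (q' : ℤ) ∣ t j) = T.filter (fun j => ¬ (r : ℤ) ∣ t j) := by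
    intro q' hq' hq'x hq'y
    have hQ : #{j ∈ T | (q' : ℤ) ∣ t j} = μ := by
      rw [heq q' (Or.inr hq'), if_pos hq'x, if_neg hq'y, add_zero]
    apply Finset.eq_of_subset_of_card_le
    · intro j hj
      rw [Finset.mem_filter] at hj ⊢
      refine ⟨hj.1, fun hrj => ?_⟩
      rcases hor j hj.1 with h | h
      · exact hrx (hrj.trans h)
      · exact hq'y (hj.2.trans h)
    · have := Finset.card_filter_add_card_filter_not (s := T) (fun j => (r : ℤ) ∣ t j)
      rw [hQ]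
      omega
  intro j hj hqj
  have hjr : ¬ (r : ℤ) ∣ t j := by
    have : j ∈ T.filter (fun j => (q : ℤ) ∣ t j) := Finset.mem_filter.mpr ⟨hj, hqj⟩
    rw [key q hq hqx hqy] at this
    exact (Finset.mem_filter.mp this).2
  constructor
  · apply dvd_of_pp
    intro m hm hmx
    by_cases hmy : (m : ℤ) ∣ y
    · exact pp_dvd T t x y μ μ' heq m hm hmx hmy j hj
    · rcases hm with rfl | hm
      · simp
      · have : j ∈ T.filter (fun j => ¬ (r : ℤ) ∣ t j) := Finset.mem_filter.mpr ⟨hj, hjr⟩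
        rw [← key m hm hmx hmy] at this
        exact (Finset.mem_filter.mp this).2
  · rcases hor j hj with h | h
    · exact h
    · exact absurd (hqj.trans h) hqy

theorem caseC (hx : x ≠ 0) (hy : y ≠ 0) (hxy : ¬ x ∣ y) (hyx : ¬ y ∣ x)
    (ht : ∀ j ∈ T, t j ≠ 0)
    (hle : ∀ m : ℕ, 0 < m → #{j ∈ T | (m : ℤ) ∣ t j} ≤
      (if (m : ℤ) ∣ x then μ else 0) + (if (m : ℤ) ∣ y then μ' else 0))
    (heq : ∀ m : ℕ, (m = 1 ∨ IsPrimePow m) → #{j ∈ T | (m : ℤ) ∣ t j} =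
      (if (m : ℤ) ∣ x then μ else 0) + (if (m : ℤ) ∣ y then μ' else 0)) (m : ℕ) (hm : 0 < m) :
    #{j ∈ T | (m : ℤ) ∣ t j} =
      (if (m : ℤ) ∣ x then μ else 0) + (if (m : ℤ) ∣ y then μ' else 0) := by
  obtain ⟨q, hq, hqx, hqy⟩ : ∃ r : ℕ, IsPrimePow r ∧ (r : ℤ) ∣ x ∧ ¬ (r : ℤ) ∣ y := by
    by_contra hcon
    push Not at hcon
    apply hxy
    apply dvd_of_pp
    intro m hm hmy
    rcases hm with rfl | hm
    · simp
    · exact hcon m hm hmy
  obtain ⟨r, hr, hry, hrx⟩ : ∃ r : ℕ, IsPrimePow r ∧ (r : ℤ) ∣ y ∧ ¬ (r : ℤ) ∣ x := by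
    by_contra hcon
    push Not at hcon
    apply hyx
    apply dvd_of_pp
    intro m hm hmy
    rcases hm with rfl | hm
    · simp
    · exact hcon m hm hmy
  have h1 := caseC_half T t x y μ μ' hx hy hyx ht hle heq q hq hqx hqy
  have h2 := caseC_half T t y x μ' μ hy hx hxy ht
    (fun m hm => by rw [add_comm]; exact hle m hm) (fun m hm => by rw [add_comm]; exact heq m hm)
    r hr hry hrx
  have hQ : #{j ∈ T | (q : ℤ) ∣ t j} = μ := by
    rw [heq q (Or.inr hq), if_pos hqx, if_neg hqy, add_zero]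
  have hR : #{j ∈ T | (r : ℤ) ∣ t j} = μ' := by
    rw [heq r (Or.inr hr), if_neg hrx, if_pos hry, zero_add]
  have hfull := cnt_full T t x y μ μ' heq
  have hdisj : ∀ j ∈ T, (q : ℤ) ∣ t j → ¬ (r : ℤ) ∣ t j := by
    intro j hj hqj hrj
    exact hrx (hrj.trans (h1 j hj hqj).2)
  have hcover : T.filter (fun j => (r : ℤ) ∣ t j) = T.filter (fun j => ¬ (q : ℤ) ∣ t j) := by
    apply Finset.eq_of_subset_of_card_le
    · intro j hj
      rw [Finset.mem_filter] at hj ⊢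
      exact ⟨hj.1, fun h => hdisj j hj.1 h hj.2⟩
    · have := Finset.card_filter_add_card_filter_not (s := T) (fun j => (q : ℤ) ∣ t j)
      omega
  have hsplit : #{j ∈ T | (m : ℤ) ∣ t j} =
      #{j ∈ T.filter (fun j => (q : ℤ) ∣ t j) | (m : ℤ) ∣ t j} +
      #{j ∈ T.filter (fun j => ¬ (q : ℤ) ∣ t j) | (m : ℤ) ∣ t j} := by
    rw [Finset.filter_filter, Finset.filter_filter]
    rw [← Finset.card_filter_add_card_filter_not (s := T.filter (fun j => (m : ℤ) ∣ t j))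
      (fun j => (q : ℤ) ∣ t j), Finset.filter_filter, Finset.filter_filter]
    congr 2 <;> · ext j; simp only [Finset.mem_filter]; tauto
  rw [hsplit, ← hcover]
  congr 1
  · by_cases hmx : (m : ℤ) ∣ x
    · rw [if_pos hmx, ← hQ]
      congr 1
      rw [Finset.filter_filter]
      apply Finset.filter_congr
      intro j hj
      exact ⟨fun h => h.1, fun h => ⟨h, hmx.trans (h1 j hj h).1⟩⟩
    · rw [if_neg hmx, Finset.filter_false_of_mem]
      · rfl
      · intro j hj h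
        rw [Finset.mem_filter] at hj
        exact hmx (h.trans (h1 j hj.1 hj.2).2)
  · by_cases hmy : (m : ℤ) ∣ y
    · rw [if_pos hmy, ← hR]
      congr 1
      rw [Finset.filter_filter]
      apply Finset.filter_congr
      intro j hj
      exact ⟨fun h => h.1, fun h => ⟨h, hmy.trans (h2 j hj h).1⟩⟩
    · rw [if_neg hmy, Finset.filter_false_of_mem]
      · rfl
      · intro j hj h
        rw [Finset.mem_filter] at hj
        exact hmy (h.trans (h2 j hj.1 hj.2).2)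

end arith

/-! ### The weights on a line -/

section line

variable {k n : ℕ} (X : TorusAction k n) (i : Fin (n + 1)) (u v : Fin k → ℤ)

/-- the non-zero weights on the line -/
noncomputable def TW : Finset (Fin n) := by
  classical exact univ.filter fun j => ∃ z : ℤ, z ≠ 0 ∧ X.w i j = z • u

theorem dot_of (huv : u ⬝ᵥ v = 1) (z : ℤ) (a : Fin k → ℤ) (h : a = z • u) : a ⬝ᵥ v = z := by
  rw [h, smul_dotProduct, huv]; simp

theorem u_ne (huv : u ⬝ᵥ v = 1) : u ≠ 0 := by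
  intro h; rw [h] at huv; simp at huv

theorem smul_inj' (huv : u ⬝ᵥ v = 1) {z z' : ℤ} (h : z • u = z' • u) : z = z' := by
  have h1 := congrArg (fun a => a ⬝ᵥ v) h
  simp only [smul_dotProduct, huv] at h1
  simpa using h1

theorem dW_eq (huv : u ⬝ᵥ v = 1) (m : ℕ) (hm : 0 < m) :
    dW X i ((m : ℤ) • u) = #{j | X.w i j = 0} +
      #{j ∈ TW X i u | (m : ℤ) ∣ X.w i j ⬝ᵥ v} := by
  classical
  unfold dW TW
  rw [← Finset.card_union_of_disjoint]
  · congr 1
    ext j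
    simp only [Finset.mem_union, Finset.mem_filter, Finset.mem_univ, true_and]
    constructor
    · rintro ⟨z, hz⟩
      rw [smul_smul] at hz
      by_cases hz0 : z * m = 0
      · left; rw [hz, hz0, zero_smul]
      · right
        refine ⟨⟨z * m, hz0, hz⟩, ?_⟩
        rw [dot_of u v huv _ _ hz]
        exact Dvd.intro_left z rfl
    · rintro (h | ⟨⟨z, hz0, hz⟩, hd⟩)
      · exact ⟨0, by rw [h, zero_smul]⟩
      · rw [dot_of u v huv _ _ hz] at hd
        obtain ⟨z', rfl⟩ := hd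
        exact ⟨z', by rw [hz, smul_smul, mul_comm]⟩
  · rw [Finset.disjoint_left]
    intro j hj hj'
    simp only [Finset.mem_filter, Finset.mem_univ, true_and] at hj hj'
    obtain ⟨⟨z, hz0, hz⟩, _⟩ := hj'
    rw [hj] at hz
    have := dot_of u v huv z 0 hz
    rw [zero_dotProduct] at this
    exact hz0 this.symm

theorem dA_eq (huv : u ⬝ᵥ v = 1) (x y : ℤ) (hx : x ≠ 0) (hy : y ≠ 0)
    (hline : ∀ l z, X.a l - X.a i = z • u → z = 0 ∨ z = x ∨ z = y) (m : ℕ) (hm : 0 < m) :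
    dA X i ((m : ℤ) • u) = #{l | l ≠ i ∧ X.a l = X.a i} +
      ((if (m : ℤ) ∣ x then #{l | X.a l - X.a i = x • u} else 0) +
        (if (m : ℤ) ∣ y then #{l | X.a l - X.a i = y • u ∧ X.a l - X.a i ≠ x • u} else 0)) := by
  classical
  have e1 : (if (m : ℤ) ∣ x then #{l | X.a l - X.a i = x • u} else 0) =
      #{l | (m : ℤ) ∣ x ∧ X.a l - X.a i = x • u} := by
    split_ifs with h <;> simp [h]
  have e2 : (if (m : ℤ) ∣ y then #{l | X.a l - X.a i = y • u ∧ X.a l - X.a i ≠ x • u} else 0) =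
      #{l | (m : ℤ) ∣ y ∧ X.a l - X.a i = y • u ∧ X.a l - X.a i ≠ x • u} := by
    split_ifs with h <;> simp [h]
  rw [e1, e2]
  unfold dA
  have hzero : ∀ z : ℤ, z • u = 0 → z = 0 := by
    intro z hz
    apply smul_inj' u v huv
    rw [hz, zero_smul]
  rw [← Finset.card_union_of_disjoint, ← Finset.card_union_of_disjoint]
  · congr 1
    ext l
    simp only [Finset.mem_union, Finset.mem_filter, Finset.mem_univ, true_and]
    constructor
    · rintro ⟨hl, z, hz⟩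
      rw [smul_smul] at hz
      rcases hline l _ hz with h | h | h
      · left
        rw [h, zero_smul, sub_eq_zero] at hz
        exact ⟨hl, hz⟩
      · right; left
        exact ⟨Dvd.intro_left z h, by rw [hz, h]⟩
      · by_cases hxx : X.a l - X.a i = x • u
        · right; left
          refine ⟨?_, hxx⟩
          have : x = z * m := smul_inj' u v huv (by rw [← hxx, hz])
          exact Dvd.intro_left z this.symm
        · right; right
          exact ⟨Dvd.intro_left z h, by rw [hz, h], hxx⟩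
    · rintro (⟨hl, h⟩ | ⟨⟨z, hz⟩, h⟩ | ⟨⟨z, hz⟩, h, _⟩)
      · exact ⟨hl, 0, by rw [h, sub_self, zero_smul]⟩
      · refine ⟨?_, z, by rw [h, hz, smul_smul, mul_comm]⟩
        rintro rfl
        rw [sub_self] at h
        exact hx (hzero x h.symm)
      · refine ⟨?_, z, by rw [h, hz, smul_smul, mul_comm]⟩
        rintro rfl
        rw [sub_self] at h
        exact hy (hzero y h.symm)
  · rw [Finset.disjoint_left]
    intro l hl hl'
    simp only [Finset.mem_filter, Finset.mem_univ, true_and, Finset.mem_union] at hl hl'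
    have h0 : X.a l - X.a i = 0 := by rw [hl.2, sub_self]
    rw [h0] at hl'
    rcases hl' with ⟨_, h⟩ | ⟨_, h, _⟩
    · exact hx (hzero x h.symm)
    · exact hy (hzero y h.symm)
  · rw [Finset.disjoint_left]
    intro l hl hl'
    simp only [Finset.mem_filter, Finset.mem_univ, true_and] at hl hl'
    exact hl'.2.2 hl.2

theorem no_special (huv : u ⬝ᵥ v = 1) (x y : ℤ) (hx : x ≠ 0) (hy : y ≠ 0)
    (hline : ∀ l z, X.a l - X.a i = z • u → z = 0 ∨ z = x ∨ z = y)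
    (hxy : x.natAbs = y.natAbs ∨ y = 2 * x ∨ (¬ x ∣ y ∧ ¬ y ∣ x)) (m : ℕ) (hm : 0 < m) :
    dW X i ((m : ℤ) • u) = dA X i ((m : ℤ) • u) := by
  classical
  have hu : Prim u := ⟨v, huv⟩
  have hz := Pool.Agent.Helper57.Petrie.dir_zero X i
  have hW := dW_eq X i u v huv
  have hA := dA_eq X i u v huv x y hx hy hline
  generalize #{l | X.a l - X.a i = x • u} = μ at hA
  generalize #{l | X.a l - X.a i = y • u ∧ X.a l - X.a i ≠ x • u} = μ' at hA
  have hle : ∀ m : ℕ, 0 < m → #{j ∈ TW X i u | (m : ℤ) ∣ X.w i j ⬝ᵥ v} ≤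
      (if (m : ℤ) ∣ x then μ else 0) + (if (m : ℤ) ∣ y then μ' else 0) := by
    intro m hm
    have := Pool.Agent.Helper57.Petrie.dir_le X i u hu m hm
    rw [hW m hm, hA m hm, hz] at this
    omega
  have heq : ∀ m : ℕ, (m = 1 ∨ IsPrimePow m) → #{j ∈ TW X i u | (m : ℤ) ∣ X.w i j ⬝ᵥ v} =
      (if (m : ℤ) ∣ x then μ else 0) + (if (m : ℤ) ∣ y then μ' else 0) := by
    intro m hm
    have hm0 : 0 < m := by
      rcases hm with rfl | h
      · norm_num
      · exact h.pos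
    have := Pool.Agent.Helper57.Petrie.dir_eq X i u hu m hm
    rw [hW m hm0, hA m hm0, hz] at this
    omega
  have ht : ∀ j ∈ TW X i u, X.w i j ⬝ᵥ v ≠ 0 := by
    intro j hj
    unfold TW at hj
    rw [Finset.mem_filter] at hj
    obtain ⟨_, z, hz0, hz⟩ := hj
    rw [dot_of u v huv z _ hz]
    exact hz0
  rw [hW m hm, hA m hm, hz]
  congr 1
  rcases hxy with h | h | ⟨h1, h2⟩
  · exact caseA (TW X i u) (fun j => X.w i j ⬝ᵥ v) x y μ μ' hx h ht hle heq m hm
  · exact caseB (TW X i u) (fun j => X.w i j ⬝ᵥ v) x y μ μ' hx h ht hle heq m hm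
  · exact caseC (TW X i u) (fun j => X.w i j ⬝ᵥ v) x y μ μ' hx hy h1 h2 ht hle heq m hm

/-- the remaining case: `x ∣ y`, `|x| < |y|`, `y ≠ 2 x` -/
theorem no_special' (huv : u ⬝ᵥ v = 1) (x y : ℤ) (hx : x ≠ 0) (hy : y ≠ 0)
    (hline : ∀ l z, X.a l - X.a i = z • u → z = 0 ∨ z = x ∨ z = y)
    (hxy : x ∣ y) (hne : x.natAbs ≠ y.natAbs) (h2 : y ≠ 2 * x)
    (l₀ : Fin (n + 1)) (hl₀ : X.a l₀ - X.a i = y • u) (m : ℕ) (hm : 0 < m) :
    dW X i ((m : ℤ) • u) = dA X i ((m : ℤ) • u) := by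
  classical
  have hu : Prim u := ⟨v, huv⟩
  have hyx : x ≠ y := fun h => hne (by rw [h])
  have hline' : ∀ l z, X.a l - X.a l₀ = z • u → z = 0 ∨ z = -y ∨ z = x - y := by
    intro l z hz
    have h1 : X.a l - X.a i = (z + y) • u := by
      rw [add_smul, ← hz, ← hl₀]; abel
    rcases hline l _ h1 with h | h | h
    · right; left; linarith
    · right; right; linarith
    · left; linarith
  have hnd1 : ¬ (-y) ∣ (x - y) := by
    intro h
    have h3 : y ∣ x - y := (neg_dvd).mp h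
    have h4 : y ∣ x := by
      have := dvd_add h3 (dvd_refl y)
      simpa using this
    exact hne (Nat.dvd_antisymm (Int.natAbs_dvd_natAbs.mpr hxy) (Int.natAbs_dvd_natAbs.mpr h4))
  have hnd2 : ¬ (x - y) ∣ (-y) := by
    intro h
    obtain ⟨k', hk⟩ := hxy
    have h3 : x * (1 - k') ∣ x * k' := by
      have : (x - y) ∣ y := (dvd_neg).mp h
      rw [hk] at this
      have e : x - x * k' = x * (1 - k') := by ring
      rwa [e] at this
    have h4 : (1 - k') ∣ k' := (mul_dvd_mul_iff_left hx).mp h3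
    have h5 : (1 - k') ∣ 1 := by
      have := dvd_add (dvd_refl (1 - k')) h4
      simpa using this
    rcases Int.isUnit_iff.mp (isUnit_of_dvd_one h5) with h6 | h6
    · have : k' = 0 := by linarith
      rw [this, mul_zero] at hk
      exact hy hk
    · have : k' = 2 := by linarith
      rw [this] at hk
      exact h2 (by rw [hk]; ring)
  have hl := no_special X l₀ u v huv (-y) (x - y) (neg_ne_zero.mpr hy) (sub_ne_zero.mpr hyx)
    hline' (Or.inr (Or.inr ⟨hnd1, hnd2⟩))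
  by_cases hmy : (m : ℤ) ∣ y
  · obtain ⟨z, hz⟩ := hmy
    apply Pool.Agent.Helper57.Petrie.dir_prop X l₀ i u hu m hm _ (hl m hm)
    refine ⟨-z, ?_⟩
    rw [smul_smul]
    have : X.a i - X.a l₀ = -(y • u) := by rw [← hl₀]; abel
    rw [this, ← neg_smul]
    congr 1
    rw [hz]; ring
  · have hmx : ¬ (m : ℤ) ∣ x := fun h => hmy (h.trans hxy)
    have h1 := Pool.Agent.Helper57.Petrie.dir_le X i u hu m hm
    rw [dW_eq X i u v huv m hm, dA_eq X i u v huv x y hx hy hline m hm,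
      Pool.Agent.Helper57.Petrie.dir_zero X i, if_neg hmx, if_neg hmy] at h1 ⊢
    omega

end line

theorem special_rich {k n : ℕ} (X : TorusAction k n) (i : Fin (n + 1)) (u : Fin k → ℤ)
    (h : Special X i u) :
    ∃ z₁ z₂ z₃ : ℤ, z₁ ≠ 0 ∧ z₂ ≠ 0 ∧ z₃ ≠ 0 ∧ z₁ ≠ z₂ ∧ z₁ ≠ z₃ ∧ z₂ ≠ z₃ ∧
      (∃ l, X.a l = X.a i + z₁ • u) ∧ (∃ l, X.a l = X.a i + z₂ • u) ∧
      (∃ l, X.a l = X.a i + z₃ • u) := by
  classical
  obtain ⟨⟨v, huv⟩, m, hm, hne⟩ := h
  let S : Finset ℤ := (univ.filter fun l => ∃ z : ℤ, z ≠ 0 ∧ X.a l - X.a i = z • u).image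
    fun l => (X.a l - X.a i) ⬝ᵥ v
  have hS : ∀ z : ℤ, z ∈ S ↔ z ≠ 0 ∧ ∃ l, X.a l - X.a i = z • u := by
    intro z
    simp only [S, Finset.mem_image, Finset.mem_filter, Finset.mem_univ, true_and]
    constructor
    · rintro ⟨l, ⟨z', hz0, hz⟩, rfl⟩
      rw [dot_of u v huv z' _ hz]
      exact ⟨hz0, l, hz⟩
    · rintro ⟨hz0, l, hz⟩
      exact ⟨l, ⟨z, hz0, hz⟩, dot_of u v huv z _ hz⟩
  have hline : ∀ l z, X.a l - X.a i = z • u → z = 0 ∨ z ∈ S := by
    intro l z hz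
    by_cases h0 : z = 0
    · exact Or.inl h0
    · exact Or.inr ((hS z).mpr ⟨h0, l, hz⟩)
  rcases Nat.lt_or_ge 2 S.card with h3 | h3
  · obtain ⟨a, ha, b, hb, c, hc, hab, hac, hbc⟩ := Finset.two_lt_card.mp h3
    rw [hS] at ha hb hc
    refine ⟨a, b, c, ha.1, hb.1, hc.1, hab, hac, hbc, ?_, ?_, ?_⟩
    · obtain ⟨l, hl⟩ := ha.2; exact ⟨l, by rw [← hl]; abel⟩
    · obtain ⟨l, hl⟩ := hb.2; exact ⟨l, by rw [← hl]; abel⟩
    · obtain ⟨l, hl⟩ := hc.2; exact ⟨l, by rw [← hl]; abel⟩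
  · exfalso
    apply hne
    -- `S ⊆ {x, y}`
    have key : ∀ x y : ℤ, x ≠ 0 → y ≠ 0 → (∀ z ∈ S, z = x ∨ z = y) →
        (x = y ∨ (∃ l, X.a l - X.a i = x • u) ∧ (∃ l, X.a l - X.a i = y • u)) →
        dW X i ((m : ℤ) • u) = dA X i ((m : ℤ) • u) := by
      intro x y hx hy hSxy hex
      have hl2 : ∀ l z, X.a l - X.a i = z • u → z = 0 ∨ z = x ∨ z = y := by
        intro l z hz
        rcases hline l z hz with h | h
        · exact Or.inl h
        · exact Or.inr (hSxy z h)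
      have hl3 : ∀ l z, X.a l - X.a i = z • u → z = 0 ∨ z = y ∨ z = x := by
        intro l z hz
        rcases hl2 l z hz with h | h | h
        · exact Or.inl h
        · exact Or.inr (Or.inr h)
        · exact Or.inr (Or.inl h)
      by_cases hab : x.natAbs = y.natAbs
      · exact no_special X i u v huv x y hx hy hl2 (Or.inl hab) m hm
      · rcases hex with rfl | ⟨⟨l1, hl1⟩, ⟨l2, hl2'⟩⟩
        · exact absurd rfl hab
        by_cases hxy : x ∣ y
        · by_cases h2 : y = 2 * x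
          · exact no_special X i u v huv x y hx hy hl2 (Or.inr (Or.inl h2)) m hm
          · exact no_special' X i u v huv x y hx hy hl2 hxy hab h2 l2 hl2' m hm
        · by_cases hyx : y ∣ x
          · by_cases h2 : x = 2 * y
            · exact no_special X i u v huv y x hy hx hl3 (Or.inr (Or.inl h2)) m hm
            · exact no_special' X i u v huv y x hy hx hl3 hyx (fun h => hab h.symm) h2 l1 hl1 m hm
          · exact no_special X i u v huv x y hx hy hl2 (Or.inr (Or.inr ⟨hxy, hyx⟩)) m hm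
    have h4 : S.card = 0 ∨ S.card = 1 ∨ S.card = 2 := by omega
    rcases h4 with h4 | h4 | h4
    · rw [Finset.card_eq_zero] at h4
      exact key 1 1 one_ne_zero one_ne_zero (by rw [h4]; simp) (Or.inl rfl)
    · obtain ⟨x, hx⟩ := Finset.card_eq_one.mp h4
      have hx0 : x ∈ S := by rw [hx]; simp
      exact key x x ((hS x).mp hx0).1 ((hS x).mp hx0).1 (by rw [hx]; simp) (Or.inl rfl)
    · obtain ⟨x, y, hxy, hx⟩ := Finset.card_eq_two.mp h4
      have hx0 : x ∈ S := by rw [hx]; simp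
      have hy0 : y ∈ S := by rw [hx]; simp
      exact key x y ((hS x).mp hx0).1 ((hS y).mp hy0).1 (by rw [hx]; simp)
        (Or.inr ⟨((hS x).mp hx0).2, ((hS y).mp hy0).2⟩)

end Pool.Agent.Helper34.Petrie
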